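import Pool.Agent.N561.AX.Stm
import Pool.Agent.N561.V.Kids
import Pool.Agent.TH563.V.KidA

/-!
# Small vertices: a large or encircled child of a small vertex, with expansions
-/

set_option autoImplicit false
set_option maxHeartbeats 1000000

namespace Pool.Agent.N130.AX

open Finset Filter Topology Metric
open Pool.Agent.W711.HT hiding XX
open Pool.Agent.TH563.UV
open Pool.Agent.TH563.V
open Pool.Agent.N561
open Pool.Agent.N561.AX
open Pool.Agent.TH563.Z (Md XB xb_ub upp_all ev_mul ux_mono)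
open Pool.Agent.W85.HT (ker_diff)
open Pool.Agent.W293.HT (zero_mem_Rc)
open Pool.Agent.TH219.J139 (Ub Ub_diff Ub_even)
open Pool.Agent.TH929.J29 (UN_diff)
open Pool.Agent.W719.AX (UX GX)
open scoped Real

/-- restriction of the expansion of the kernel -/
lemma kxg_res {ρ₂ τ₂ ρ₃ τ₃ : ℝ} {V : Set ℂ} {k : ℕ → ℂ → ℂ → ℂ} {s : ℂ → ℂ → ℂ}
    {A : ℕ → ℂ × ℂ → ℂ} (h : KXG ρ₂ τ₂ V k s A)
    (h1 : 0 < ρ₃) (h2 : ρ₃ ≤ ρ₂) (h3 : 0 < τ₃) (h4 : τ₃ ≤ τ₂) :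
    KXG ρ₃ τ₃ V k s A := by
  have hs : Rc ρ₃ τ₃ ⊆ Rc ρ₂ τ₂ := rc_mono' h2 h4
  exact ⟨h1, h3, h.hV, ux_mono h.ux (Set.prod_mono hs subset_rfl),
    fun n p hp => (h.d1 n p hp).mono hs, fun x hx => h.nz x ⟨hs hx.1, hx.2⟩⟩

/-- a large or encircled child of a small vertex, with expansions -/
theorem kidsx (hVF : S_VF) (hVT : S_VT) (hVFX : S_VFX) (hVTX : S_VTX)
    (hR : Pool.Agent.N561.S_RB) : Pool.Agent.N561.AX.S_KIDSX := by
  intro U x₁ τ₁ ε₁ ε₂ ρ τ κ c C hx₁ hx₁' hτ₁ hε₁ hε₂ hUG hE hrb ρ₂ z₀ v Ak hρρ hτρ hv hVU hKX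
    r₀ κ₁ c₁ C₁ hr₀ hκ₁ hc₁ hC₁
  have hρ0 := hE.hρ.1
  have hτ0 := hE.hτ.1
  have hκ0 := hE.hκ.1
  have hVW : ball z₀ (2 * v) ⊆ closedBall z₀ (2 * v) := ball_subset_closedBall
  have hWc : IsCompact (closedBall z₀ (2 * v)) := isCompact_closedBall _ _
  have hKX' : KXG ρ τ (ball z₀ (2 * v)) k0 sg Ak := kxg_res hKX hρ0 hρρ hτ0 hτρ
  obtain ⟨r₁, hr₁⟩ : ∃ r₁ : ℝ, r₁ = min r₀ (min ρ τ / 5) := ⟨_, rfl⟩
  have hmin : 0 < min ρ τ := lt_min hρ0 hτ0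
  have hr₁0 : 0 < r₁ := by
    rw [hr₁]
    exact lt_min hr₀ (by positivity)
  have hr₁a : r₁ ≤ r₀ := by rw [hr₁]; exact min_le_left _ _
  have hr₁b : r₁ < min ρ τ / 4 := by
    have : r₁ ≤ min ρ τ / 5 := by rw [hr₁]; exact min_le_right _ _
    linarith
  obtain ⟨e₁, he₁⟩ : ∃ e₁ : ℝ, e₁ = min ε₁ (κ / 16) := ⟨_, rfl⟩
  have he₁0 : 0 < e₁ := by
    rw [he₁]
    exact lt_min hε₁ (by positivity)
  have he₁a : e₁ ≤ ε₁ := by rw [he₁]; exact min_le_left _ _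
  have he₁b : e₁ ≤ κ / 16 := by rw [he₁]; exact min_le_right _ _
  obtain ⟨K, hK0, hcp⟩ := hVF ρ τ κ c C U k0 sg hE κ₁ c₁ C₁ hκ₁ hc₁ hC₁ r₁ e₁ hr₁0 he₁0
  refine ⟨K, hK0, ?_⟩
  intro t m X F A hX hA b a hbig
  have hB : XB X (F 0).re := xb_gv hρ0 hτ0 hκ₁.le hc₁.le hC₁.le hX
  have hY : stpb b a X = stp a (fun N ψ => Ub b N ψ * X N ψ) := by
    funext N ψ
    exact Pool.Agent.TH219.J139.stpb_eq b a X N ψ
  obtain ⟨X', hX'⟩ : ∃ X' : ℕ → ℂ → ℂ, X' = fun N ψ => Ub b N ψ * X N ψ := ⟨_, rfl⟩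
  have hB' : XB X' (F 0).re := by rw [hX']; exact xb_ub b hB
  have hXd : ∀ N, Differentiable ℂ (X' N) := by
    intro N
    rw [hX']
    exact (Ub_diff b N).mul (hX.an N)
  obtain ⟨st1, st2⟩ := Pool.Agent.W398.HT.t_STPE a X' hXd
  rw [hY, ← hX']
  have hrb' := st0_rb (a := a) hXd hB' hε₂ hrb
  have hgl' := fun ε hε => st0_gl (a := a) hXd hB' hR (ε := ε) hε
  have hst := st0_stk a X' hXd
  -- the parts of `PSm` common to both cases
  have key : ∀ (f₀ : ℂ) (F' : ℂ → ℂ), f₀.re = (F 0).re → DifferentiableOn ℂ F' U →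
      (∀ φ ∈ U, ‖F' φ - f₀ - sg 0 φ‖ ≤ ε₁) → (∀ V ⊆ U, IsCompact V → MW (stk a X' k0) F' V) →
      PSm U x₁ τ₁ ε₁ ε₂ 1 (stp a X') (st0 a X') f₀ F' := by
    intro f₀ F' e1 e2 e3 e4
    refine ⟨st1, st0_diff a X', by rw [e1]; exact hX.pos, e2, ?_, ?_, ?_, ?_⟩
    · intro φ hφ
      rw [Nat.cast_one, Nat.cast_one, one_mul, one_mul]
      exact e3 φ hφ
    · intro V hV hVc
      rw [hst]
      exact e4 V hV hVc
    · rw [e1, Nat.cast_one, one_mul]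
      exact hrb'
    · intro ε hε
      rw [e1, Nat.cast_one, one_mul, sub_self, zero_mul, add_zero]
      exact hgl' ε hε
  cases b with
  | false =>
    have hXX : X' = X := by
      rw [hX']
      funext N ψ
      show (1 : ℂ) * X N ψ = X N ψ
      rw [one_mul]
    obtain ⟨F', zs, hF1, hz1, hF2, -, hF3, hmw⟩ := hcp t X F hX a (hbig rfl)
    obtain ⟨A', hA'⟩ := hVFX ρ τ κ c C U k0 sg hE κ₁ c₁ C₁ hκ₁ hc₁ hC₁ t X F hX ρ τ
      (ball z₀ (2 * v)) (closedBall z₀ (2 * v)) Ak le_rfl le_rfl hKX' hWc hVW hVU m A hA a r₁ F' zs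
      hr₁b hF1 hz1 (fun φ hφ => (hF2 φ hφ).trans he₁b)
      (fun φ hφ => ⟨(hF3 φ hφ).1, (hF3 φ hφ).2.1, (hF3 φ hφ).2.2.2.1⟩)
      (fun N => by
        rw [← hXX, ← hst]
        exact (st0_diff a X' N).differentiableOn)
    refine ⟨st0 a X', F 0, F', zs, A', key (F 0) F' rfl hF1 (fun φ hφ => (hF2 φ hφ).trans he₁a) ?_,
      ?_, ?_⟩
    · intro V hV hVc
      rw [hXX]
      exact hmw V hVc hV
    · rw [hst, hXX]
      exact hA'
    · intro φ hφ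
      obtain ⟨p1, p2, p3, p4, p5⟩ := hF3 φ hφ
      refine ⟨rc_mono' (by linarith) (by linarith) p1.mem, p1.sm.trans hr₁a,
        fun h => absurd h (by simp),
        fun _ => ⟨⟨p1.mem, p1.im, p1.sm.trans hr₁a⟩, p3⟩, ?_, p5⟩
      rw [p4]
      simp [vt, qq]
  | true =>
    have hXX : X' = fun N ψ => UN N ψ * X N ψ := by
      rw [hX']
      rfl
    have h00 : (0 : ℂ) ∈ Rc (3 * ρ) (3 * τ) := zero_mem_Rc (by linarith) (by linarith)
    have hf0 : (F 0 + π * Complex.I).re = (F 0).re := by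
      rw [Complex.add_re]
      simp
    have hsd : DifferentiableOn ℂ (fun φ => sg 0 φ) U := by
      have h1 : DifferentiableOn ℂ (fun w : ℂ => ((0 : ℂ), w)) U :=
        ((differentiable_const _).prodMk differentiable_id).differentiableOn
      have h2 : DifferentiableOn ℂ ((fun p : ℂ × ℂ => sg p.1 p.2) ∘ fun w : ℂ => ((0 : ℂ), w)) U :=
        hE.san.comp h1 (fun w hw => ⟨h00, hw⟩)
      exact h2
    obtain ⟨A', hA'⟩ := hVTX ρ τ κ c C U k0 sg hE κ₁ c₁ C₁ hκ₁ hc₁ hC₁ t X F hX ρ τ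
      (ball z₀ (2 * v)) (closedBall z₀ (2 * v)) Ak le_rfl le_rfl hKX' hWc hVW hVU m A hA a
      (fun N => by
        rw [← hXX, ← hst]
        exact (st0_diff a X' N).differentiableOn)
    refine ⟨st0 a X', F 0 + π * Complex.I, fun φ => F 0 + π * Complex.I + sg 0 φ, fun _ => 0, A',
      key _ _ hf0 ?_ ?_ ?_, ?_, ?_⟩
    · exact (differentiableOn_const _).add hsd
    · intro φ _
      have e : F 0 + π * Complex.I + sg 0 φ - (F 0 + π * Complex.I) - sg 0 φ = 0 := by ring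
      rw [e, norm_zero]
      exact hε₁.le
    · intro V hV hVc
      rw [hXX]
      exact hVT ρ τ κ c C U k0 sg hE κ₁ c₁ C₁ hκ₁ hc₁ hC₁ t X F hX a V hVc hV
    · rw [hst, hXX]
      exact hA'
    · intro φ hφ
      refine ⟨h00, by rw [norm_zero]; exact hr₀.le,
        fun _ => rfl, fun h => absurd h (by simp), ?_, ?_⟩
      · show F 0 + π * Complex.I + sg 0 φ = vt true a 0 + F 0 + sg 0 φ
        simp only [vt, if_true]
        ring
      · have h1 : HasDerivAt (fun w => sg 0 w) (deriv (fun w => sg 0 w) φ) φ :=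
          (hsd.differentiableAt (hE.hU.mem_nhds hφ)).hasDerivAt
        exact h1.const_add _

end Pool.Agent.N130.AX
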